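import Mathlib

set_option autoImplicit false

/-!
# Split graphs of diameter three with four distinct eigenvalues and many distinct degrees

Let `C` be a set of `n` points and let `S` index a family of blocks (subsets of `C`, repetitions
allowed) such that every point lies in exactly `μ ^ 2` blocks and any two points lie in exactly `μ`
common blocks. The split graph with clique `C`, stable set `S` and the incidences as its other
edges has only the eigenvalues `n - 1 + μ`, `μ - 1`, `-μ` and `0`: for an eigenvector `(x, y)` of `l`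
one finds `(l + μ) (X - (l + 1 - μ) x_a) = 0` for all points `a`, where `X` is the sum of `x`. The sizes
of the blocks do not matter. Any family of blocks can be completed to such a system (for a large `μ`)
by adding blocks with two elements and then blocks with one element. Starting with the initial
segments of `C = {0, ..., n - 1}` one obtains, with `μ = 2 * n + 1`, split graphs of diameter `3` with
exactly four distinct eigenvalues and with at least `n` distinct degrees.
-/

namespace Pool.Agent.Results.MP_6460d1_co.ManyDegrees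

open Finset SimpleGraph

/-- `G` is a split graph: its vertex set is the union of a clique `C` and a stable set. -/
def IsSplit {V : Type*} (G : SimpleGraph V) : Prop :=
  ∃ C : Set V, (∀ u ∈ C, ∀ v ∈ C, u ≠ v → G.Adj u v) ∧ ∀ u ∉ C, ∀ v ∉ C, ¬ G.Adj u v

/-- `G` is connected and its diameter is exactly `d`. -/
def HasDiameter {V : Type*} (G : SimpleGraph V) (d : ℕ) : Prop :=
  G.Connected ∧ (∀ u v, G.dist u v ≤ d) ∧ ∃ u v, G.dist u v = d

/-- The split graph with clique `C`, stable set `S` and incidences `M`. -/
def splitGraph {C S : Type*} (M : C → S → Prop) : SimpleGraph (C ⊕ S) where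
  Adj u v := match u, v with
    | .inl a, .inl b => a ≠ b
    | .inl a, .inr s => M a s
    | .inr s, .inl a => M a s
    | .inr _, .inr _ => False
  symm := ⟨by
    rintro (a | s) (b | t) h
    · exact Ne.symm h
    · exact h
    · exact h
    · exact h⟩
  loopless := ⟨by
    rintro (a | s) h
    · exact h rfl
    · exact h⟩

section

variable {C S : Type*} {M : C → S → Prop}

@[simp] theorem adj_ll {a b : C} : (splitGraph M).Adj (.inl a) (.inl b) ↔ a ≠ b := Iff.rfl
@[simp] theorem adj_lr {a : C} {s : S} : (splitGraph M).Adj (.inl a) (.inr s) ↔ M a s := Iff.rfl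
@[simp] theorem adj_rl {a : C} {s : S} : (splitGraph M).Adj (.inr s) (.inl a) ↔ M a s := Iff.rfl
@[simp] theorem adj_rr {s t : S} : (splitGraph M).Adj (.inr s) (.inr t) ↔ False := Iff.rfl

theorem isSplit : IsSplit (splitGraph M) := by
  refine ⟨Set.range Sum.inl, ?_, ?_⟩
  · rintro _ ⟨a, rfl⟩ _ ⟨b, rfl⟩ h
    exact fun h' => h (by rw [h'])
  · rintro (a | s) hu (b | t) hv
    · exact absurd ⟨a, rfl⟩ hu
    · exact absurd ⟨a, rfl⟩ hu
    · exact absurd ⟨b, rfl⟩ hv
    · exact fun h => h

theorem toClique (h3 : ∀ s, ∃ a, M a s) (u : C ⊕ S) :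
    ∃ a : C, ∃ p : (splitGraph M).Walk u (.inl a), p.length ≤ 1 := by
  rcases u with a | s
  · exact ⟨a, Walk.nil, by simp⟩
  · obtain ⟨a, ha⟩ := h3 s
    exact ⟨a, Walk.cons (adj_rl.mpr ha) Walk.nil, by simp⟩

theorem short (h3 : ∀ s, ∃ a, M a s) (u v : C ⊕ S) :
    ∃ p : (splitGraph M).Walk u v, p.length ≤ 3 := by
  obtain ⟨a, p, hp⟩ := toClique h3 u
  obtain ⟨b, q, hq⟩ := toClique h3 v
  by_cases hab : a = b
  · subst hab
    refine ⟨p.append q.reverse, ?_⟩
    rw [Walk.length_append, Walk.length_reverse]
    omega
  · refine ⟨p.append (Walk.cons (adj_ll.mpr hab) q.reverse), ?_⟩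
    rw [Walk.length_append, Walk.length_cons, Walk.length_reverse]
    omega

theorem hasDiameter [Nonempty C] (h3 : ∀ s, ∃ a, M a s)
    (h4 : ∃ s t, ∀ a, ¬ (M a s ∧ M a t)) : HasDiameter (splitGraph M) 3 := by
  have hc : (splitGraph M).Connected := by
    have : Nonempty (C ⊕ S) := ⟨.inl (Classical.arbitrary C)⟩
    exact ⟨fun u v => (short h3 u v).choose.reachable⟩
  have hle : ∀ u v, (splitGraph M).dist u v ≤ 3 := by
    intro u v
    obtain ⟨p, hp⟩ := short h3 u v
    exact (dist_le p).trans hp
  refine ⟨hc, hle, ?_⟩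
  obtain ⟨s, t, hst⟩ := h4
  refine ⟨.inr s, .inr t, le_antisymm (hle _ _) ?_⟩
  obtain ⟨p, hp⟩ := hc.exists_walk_length_eq_dist (.inr s) (.inr t)
  rw [← hp]
  by_contra hlt
  push Not at hlt
  obtain ⟨a, ha⟩ := h3 s
  match p, hlt with
  | .nil, _ => exact hst a ⟨ha, ha⟩
  | .cons h .nil, _ => exact h
  | .cons (v := .inl b) h (.cons h' .nil), _ => exact hst b ⟨h, h'⟩
  | .cons (v := .inr b) h (.cons h' .nil), _ => exact h
  | .cons _ (.cons _ (.cons _ _)), hlt => simp at hlt; omega

end

theorem mem_spectrum_iff {V : Type*} [Fintype V] [DecidableEq V] (A : Matrix V V ℝ) (l : ℝ) :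
    l ∈ spectrum ℝ A ↔ ∃ x : V → ℝ, x ≠ 0 ∧ A.mulVec x = l • x := by
  rw [spectrum.mem_iff, Matrix.isUnit_iff_isUnit_det, isUnit_iff_ne_zero, not_not,
    ← Matrix.exists_mulVec_eq_zero_iff]
  constructor
  · rintro ⟨x, hx, h⟩
    refine ⟨x, hx, ?_⟩
    rw [Matrix.sub_mulVec, sub_eq_zero] at h
    rw [← h, Matrix.algebraMap_eq_diagonal]
    ext i
    simp [Matrix.mulVec_diagonal]
  · rintro ⟨x, hx, h⟩
    refine ⟨x, hx, ?_⟩
    rw [Matrix.sub_mulVec, sub_eq_zero, h, Matrix.algebraMap_eq_diagonal]
    ext i
    simp [Matrix.mulVec_diagonal]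

section spec

variable {C S : Type*} [Fintype C] [Fintype S] [DecidableEq C] [DecidableEq S]
  {M : C → S → Prop} [DecidableRel (splitGraph M).Adj] [∀ a s, Decidable (M a s)]

theorem mulVec_inl (x : C ⊕ S → ℝ) (a : C) :
    ((splitGraph M).adjMatrix ℝ).mulVec x (.inl a) =
      ∑ b, x (.inl b) - x (.inl a) + ∑ s, (if M a s then 1 else 0) * x (.inr s) := by
  simp only [Matrix.mulVec, dotProduct, adjMatrix_apply, Fintype.sum_sum_type, adj_ll, adj_lr]
  congr 1
  · rw [eq_sub_iff_add_eq, ← Finset.add_sum_erase _ _ (mem_univ a),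
      ← Finset.add_sum_erase _ (fun b => x (.inl b)) (mem_univ a)]
    simp only [ne_eq, not_true_eq_false, if_false, zero_mul, zero_add]
    rw [add_comm]
    congr 1
    refine sum_congr rfl fun b hb => ?_
    rw [if_pos (Ne.symm (ne_of_mem_erase hb)), one_mul]

theorem mulVec_inr (x : C ⊕ S → ℝ) (s : S) :
    ((splitGraph M).adjMatrix ℝ).mulVec x (.inr s) =
      ∑ a, (if M a s then 1 else 0) * x (.inl a) := by
  simp only [Matrix.mulVec, dotProduct, adjMatrix_apply, Fintype.sum_sum_type, adj_rl, adj_rr]
  simp only [if_false, zero_mul, sum_const_zero, add_zero]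

/-- The spectrum of the split graph of an incidence structure with `μ ^ 2` blocks through each point
and `μ` blocks through any two points. -/
theorem spectrum_eq {μ : ℝ} (hμ : 1 < μ) {a₀ a₁ : C} (ha : a₀ ≠ a₁)
    (hBB : ∀ a b : C, ∑ s, (if M a s then (1 : ℝ) else 0) * (if M b s then 1 else 0) =
      if a = b then μ ^ 2 else μ)
    (h5 : ∃ s t : S, s ≠ t ∧ ∀ a, (M a s ↔ M a t)) :
    spectrum ℝ ((splitGraph M).adjMatrix ℝ) =
      {(Fintype.card C : ℝ) - 1 + μ, μ - 1, -μ, 0} := by
  have key : ∀ (x : C → ℝ) (a : C), ∑ s, (if M a s then (1 : ℝ) else 0) *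
      ∑ b, (if M b s then 1 else 0) * x b = μ * ∑ b, x b + (μ ^ 2 - μ) * x a := by
    intro x a
    simp only [mul_sum]
    rw [sum_comm]
    have h1 : ∀ b, ∑ s, (if M a s then (1 : ℝ) else 0) * ((if M b s then 1 else 0) * x b) =
        (if a = b then μ ^ 2 else μ) * x b := by
      intro b
      rw [← hBB a b, sum_mul]
      exact sum_congr rfl fun s _ => by ring
    simp only [h1]
    have h2 : ∀ b, (if a = b then μ ^ 2 else μ) * x b =
        μ * x b + (if a = b then (μ ^ 2 - μ) * x b else 0) := by
      intro b
      split_ifs <;> ring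
    simp only [h2, sum_add_distrib]
    rw [sum_ite_eq]
    simp
  ext l
  rw [mem_spectrum_iff]
  simp only [Set.mem_insert_iff, Set.mem_singleton_iff]
  constructor
  · rintro ⟨x, hx, h⟩
    have e1 : ∀ a, ∑ b, x (.inl b) - x (.inl a) + ∑ s, (if M a s then 1 else 0) * x (.inr s) =
        l * x (.inl a) := by
      intro a
      have := congrFun h (.inl a)
      rw [mulVec_inl] at this
      simpa using this
    have e2 : ∀ s, ∑ a, (if M a s then 1 else 0) * x (.inl a) = l * x (.inr s) := by
      intro s
      have := congrFun h (.inr s)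
      rw [mulVec_inr] at this
      simpa using this
    have e3 : ∀ a, (l + μ) * (∑ b, x (.inl b) - (l + 1 - μ) * x (.inl a)) = 0 := by
      intro a
      have h1 := key (fun b => x (.inl b)) a
      simp only [e2] at h1
      have h2 : ∑ s, (if M a s then (1 : ℝ) else 0) * (l * x (.inr s)) =
          l * ∑ s, (if M a s then (1 : ℝ) else 0) * x (.inr s) := by
        rw [mul_sum]
        exact sum_congr rfl fun s _ => by ring
      rw [h2] at h1
      have h3 := e1 a
      linear_combination l * h3 - h1
    by_contra hcon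
    push Not at hcon
    obtain ⟨c1, c2, c3, c4⟩ := hcon
    have e4 : ∀ a, ∑ b, x (.inl b) = (l + 1 - μ) * x (.inl a) := by
      intro a
      rcases mul_eq_zero.mp (e3 a) with h | h
      · exact absurd (by linarith) c3
      · linarith
    have e5 : ∑ b, x (.inl b) = 0 := by
      have h1 : ∑ _a : C, ∑ b, x (.inl b) = (l + 1 - μ) * ∑ b, x (.inl b) := by
        rw [mul_sum]
        exact sum_congr rfl fun a _ => e4 a
      rw [sum_const, card_univ, nsmul_eq_mul] at h1
      have h2 : ((Fintype.card C : ℝ) - 1 + μ - l) * ∑ b, x (.inl b) = 0 := by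
        linear_combination h1
      rcases mul_eq_zero.mp h2 with h | h
      · exact absurd (by linarith) c1
      · exact h
    have e6 : ∀ a, x (.inl a) = 0 := by
      intro a
      have h1 := e4 a
      rw [e5] at h1
      rcases mul_eq_zero.mp h1.symm with h | h
      · exact absurd (by linarith) c2
      · exact h
    apply hx
    ext v
    rcases v with a | s
    · exact e6 a
    · have h1 := e2 s
      simp only [e6, mul_zero, sum_const_zero] at h1
      rcases mul_eq_zero.mp h1.symm with h | h
      · exact absurd h c4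
      · exact h
  · have hpair : ∀ l : ℝ, l ≠ 0 → l ^ 2 + l = μ ^ 2 - μ →
        ∃ x : C ⊕ S → ℝ, x ≠ 0 ∧ ((splitGraph M).adjMatrix ℝ).mulVec x = l • x := by
      intro l hl0 hl
      obtain ⟨z, hz⟩ : ∃ z : C → ℝ, z = fun a => (if a = a₀ then 1 else 0) -
        (if a = a₁ then 1 else 0) := ⟨_, rfl⟩
      have hz0 : ∑ a, z a = 0 := by
        rw [hz]; simp
      refine ⟨Sum.elim z (fun s => (∑ a, (if M a s then 1 else 0) * z a) / l), ?_, ?_⟩
      · intro h
        have := congrFun h (.inl a₀)
        simp [hz, ha] at this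
      · ext v
        rcases v with a | s
        · rw [mulVec_inl]
          simp only [Sum.elim_inl, Sum.elim_inr, Pi.smul_apply, smul_eq_mul, hz0]
          have h1 := key z a
          rw [hz0] at h1
          have h2 : ∑ s, (if M a s then (1 : ℝ) else 0) *
              ((∑ a, (if M a s then 1 else 0) * z a) / l) =
              (∑ s, (if M a s then (1 : ℝ) else 0) * ∑ a, (if M a s then 1 else 0) * z a) / l := by
            rw [sum_div]
            exact sum_congr rfl fun s _ => by ring
          rw [h2, h1, ← hl]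
          field_simp
          ring
        · rw [mulVec_inr]
          simp only [Sum.elim_inl, Sum.elim_inr, Pi.smul_apply, smul_eq_mul]
          field_simp
    rintro (h | h | h | h)
    · have hl0 : l ≠ 0 := by
        have : (0 : ℝ) ≤ Fintype.card C := Nat.cast_nonneg _
        rw [h]
        intro h'
        linarith
      refine ⟨Sum.elim (fun _ => 1) (fun s => (∑ a : C, (if M a s then (1 : ℝ) else 0) * 1) / l),
        ?_, ?_⟩
      · intro h
        have := congrFun h (.inl a₀)
        simp at this
      · ext v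
        rcases v with a | s
        · rw [mulVec_inl]
          simp only [Sum.elim_inl, Sum.elim_inr, Pi.smul_apply, smul_eq_mul]
          have h1 := key (fun _ => 1) a
          have h2 : ∑ s, (if M a s then (1 : ℝ) else 0) *
              ((∑ a : C, (if M a s then (1 : ℝ) else 0) * 1) / l) =
              (∑ s, (if M a s then (1 : ℝ) else 0) * ∑ a : C, (if M a s then (1 : ℝ) else 0) * 1) /
                l := by
            rw [sum_div]
            exact sum_congr rfl fun s _ => by ring
          rw [h2, h1]
          simp only [sum_const, card_univ, nsmul_eq_mul, mul_one]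
          field_simp
          rw [h]
          ring
        · rw [mulVec_inr]
          simp only [Sum.elim_inl, Sum.elim_inr, Pi.smul_apply, smul_eq_mul]
          field_simp
    · exact hpair l (by rw [h]; intro h'; linarith) (by rw [h]; ring)
    · exact hpair l (by rw [h]; intro h'; linarith) (by rw [h]; ring)
    · obtain ⟨s, t, hst, hM⟩ := h5
      refine ⟨Sum.elim (fun _ => 0) (fun u => (if u = s then 1 else 0) - (if u = t then 1 else 0)),
        ?_, ?_⟩
      · intro h
        have := congrFun h (.inr s)
        simp [hst] at this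
      · ext v
        rcases v with a | u
        · rw [mulVec_inl]
          simp only [Sum.elim_inl, Sum.elim_inr, Pi.smul_apply, smul_eq_mul, h]
          simp only [mul_sub, sum_sub_distrib, mul_ite, mul_one, mul_zero, sum_ite_eq',
            mem_univ, if_true, hM a]
          simp
        · rw [mulVec_inr]
          simp [h]

theorem ncard_spectrum {μ : ℝ} (hμ : 1 < μ) {a₀ a₁ : C} (ha : a₀ ≠ a₁)
    (hBB : ∀ a b : C, ∑ s, (if M a s then (1 : ℝ) else 0) * (if M b s then 1 else 0) =
      if a = b then μ ^ 2 else μ)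
    (h5 : ∃ s t : S, s ≠ t ∧ ∀ a, (M a s ↔ M a t)) :
    (spectrum ℝ ((splitGraph M).adjMatrix ℝ)).ncard = 4 := by
  rw [spectrum_eq hμ ha hBB h5]
  have hc : (2 : ℝ) ≤ Fintype.card C := by
    have : 1 < Fintype.card C := Fintype.one_lt_card_iff.mpr ⟨a₀, a₁, ha⟩
    exact_mod_cast this
  rw [Set.ncard_insert_of_notMem, Set.ncard_insert_of_notMem, Set.ncard_insert_of_notMem,
    Set.ncard_singleton]
  · simp only [Set.mem_singleton_iff]
    intro h
    linarith
  · simp only [Set.mem_insert_iff, Set.mem_singleton_iff]
    rintro (h | h) <;> linarith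
  · simp only [Set.mem_insert_iff, Set.mem_singleton_iff]
    rintro (h | h | h) <;> linarith

end spec

section design

variable (n : ℕ)

/-- The blocks before the completion by singletons: the `n` initial segments of `Fin n` and, for
`a < b`, `n + 1 + b` copies of `{a, b}`. -/
abbrev T : Type :=
  Fin n ⊕ (Σ p : Fin n × Fin n, Fin (if p.1 < p.2 then n + 1 + (p.2 : ℕ) else 0))

/-- The incidences between points and these blocks. -/
def P (a : Fin n) : T n → Bool
  | .inl j => decide (a ≤ j)
  | .inr q => decide (a = q.1.1 ∨ a = q.1.2)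

/-- The number of blocks of `T n` through the point `a`. -/
def deg (a : Fin n) : ℕ := ∑ t : T n, (P n a t).toNat

/-- All blocks: the blocks of `T n` and as many singletons as needed. -/
abbrev S : Type := T n ⊕ (Σ a : Fin n, Fin ((2 * n + 1) ^ 2 - deg n a))

/-- The incidences between points and blocks. -/
def M (a : Fin n) : S n → Bool
  | .inl t => P n a t
  | .inr q => decide (a = q.1)

theorem P_inl (a j : Fin n) : P n a (.inl j) = decide (a ≤ j) := rfl

theorem P_inr (a : Fin n) (p : Fin n × Fin n)
    (i : Fin (if p.1 < p.2 then n + 1 + (p.2 : ℕ) else 0)) :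
    P n a (.inr ⟨p, i⟩) = decide (a = p.1 ∨ a = p.2) := rfl

theorem M_inl (a : Fin n) (t : T n) : M n a (.inl t) = P n a t := rfl

theorem M_inr (a c : Fin n) (i : Fin ((2 * n + 1) ^ 2 - deg n c)) :
    M n a (.inr ⟨c, i⟩) = decide (a = c) := rfl

theorem deg_le (a : Fin n) : deg n a ≤ (2 * n + 1) ^ 2 := by
  have h1 : deg n a = ∑ j : Fin n, (decide (a ≤ j)).toNat + ∑ p : Fin n × Fin n,
      (if p.1 < p.2 then n + 1 + (p.2 : ℕ) else 0) * (decide (a = p.1 ∨ a = p.2)).toNat := by
    rw [deg, Fintype.sum_sum_type, Fintype.sum_sigma]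
    simp only [P_inl, P_inr, sum_const, card_univ, Fintype.card_fin, smul_eq_mul]
  have h2 : ∑ j : Fin n, (decide (a ≤ j)).toNat ≤ n := by
    calc ∑ j : Fin n, (decide (a ≤ j)).toNat ≤ ∑ _j : Fin n, 1 :=
          sum_le_sum fun j _ => Bool.toNat_le _
      _ = n := by simp
  have h3 : ∑ p : Fin n × Fin n,
      (if p.1 < p.2 then n + 1 + (p.2 : ℕ) else 0) * (decide (a = p.1 ∨ a = p.2)).toNat ≤
      2 * n * (2 * n + 1) := by
    calc ∑ p : Fin n × Fin n,
        (if p.1 < p.2 then n + 1 + (p.2 : ℕ) else 0) * (decide (a = p.1 ∨ a = p.2)).toNat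
        ≤ ∑ p : Fin n × Fin n,
          ((if a = p.1 then 2 * n + 1 else 0) + (if a = p.2 then 2 * n + 1 else 0)) := by
          refine sum_le_sum fun p _ => ?_
          have hp : (if p.1 < p.2 then n + 1 + (p.2 : ℕ) else 0) ≤ 2 * n + 1 := by
            have := p.2.isLt
            split_ifs <;> omega
          by_cases h : a = p.1 ∨ a = p.2
          · rw [decide_eq_true h, Bool.toNat_true, mul_one]
            rcases h with h | h
            · rw [if_pos h]; omega
            · rw [if_pos h]; omega
          · rw [decide_eq_false h, Bool.toNat_false, mul_zero]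
            exact Nat.zero_le _
      _ = 2 * n * (2 * n + 1) := by
          have e : ∀ x : Fin n, ∑ y : Fin n,
              ((if a = x then 2 * n + 1 else 0) + (if a = y then 2 * n + 1 else 0)) =
              n * (if a = x then 2 * n + 1 else 0) + (2 * n + 1) := by
            intro x
            rw [sum_add_distrib, sum_const, sum_ite_eq, if_pos (mem_univ _), card_univ,
              Fintype.card_fin, smul_eq_mul]
          rw [Fintype.sum_prod_type]
          simp only [e]
          rw [sum_add_distrib, ← mul_sum, sum_ite_eq, if_pos (mem_univ _), sum_const, card_univ,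
              Fintype.card_fin, smul_eq_mul]
          ring
  rw [h1]
  nlinarith

theorem pair_count {a b : Fin n} (hab : a < b) :
    ∑ t : T n, (P n a t).toNat * (P n b t).toNat = 2 * n + 1 := by
  rw [Fintype.sum_sum_type, Fintype.sum_sigma]
  simp only [P_inl, P_inr, sum_const, card_univ, Fintype.card_fin, smul_eq_mul]
  have h1 : ∑ j : Fin n, (decide (a ≤ j)).toNat * (decide (b ≤ j)).toNat = n - b := by
    rw [← Fin.card_Ici b, card_eq_sum_ones, ← sum_filter_add_sum_filter_not univ (fun j => b ≤ j)]
    rw [show (univ.filter fun j => b ≤ j) = Ici b by ext; simp]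
    have h2 : ∑ j with ¬ b ≤ j, (decide (a ≤ j)).toNat * (decide (b ≤ j)).toNat = 0 := by
      refine sum_eq_zero fun j hj => ?_
      rw [mem_filter] at hj
      rw [decide_eq_false hj.2]
      simp
    rw [h2, add_zero]
    refine sum_congr rfl fun j hj => ?_
    rw [mem_Ici] at hj
    rw [decide_eq_true hj, decide_eq_true (hab.le.trans hj)]
    rfl
  have h2 : ∑ p : Fin n × Fin n, (if p.1 < p.2 then n + 1 + (p.2 : ℕ) else 0) *
      ((decide (a = p.1 ∨ a = p.2)).toNat * (decide (b = p.1 ∨ b = p.2)).toNat) =
      n + 1 + b := by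
    rw [sum_eq_single (a, b)]
    · simp [hab]
    · rintro ⟨x, y⟩ _ hxy
      by_cases hlt : x < y
      · have : ¬ ((a = x ∨ a = y) ∧ (b = x ∨ b = y)) := by
          rintro ⟨h | h, h' | h'⟩
          · exact absurd (h.trans h'.symm) hab.ne
          · exact hxy (by rw [h, h'])
          · rw [h, h'] at hab
            exact absurd hlt hab.asymm
          · exact absurd (h.trans h'.symm) hab.ne
        by_cases h1 : a = x ∨ a = y
        · have h2 : ¬ (b = x ∨ b = y) := fun h => this ⟨h1, h⟩
          simp [h2]
        · simp [h1]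
      · simp [hlt]
    · intro h
      exact absurd (mem_univ _) h
  rw [h1, h2]
  have := b.isLt
  omega

theorem count (a b : Fin n) :
    ∑ s : S n, (M n a s).toNat * (M n b s).toNat =
      if a = b then (2 * n + 1) ^ 2 else 2 * n + 1 := by
  rw [Fintype.sum_sum_type, Fintype.sum_sigma]
  simp only [M_inl, M_inr, sum_const, card_univ, Fintype.card_fin, smul_eq_mul]
  have h1 : ∑ c : Fin n, ((2 * n + 1) ^ 2 - deg n c) *
      ((decide (a = c)).toNat * (decide (b = c)).toNat) =
      if a = b then (2 * n + 1) ^ 2 - deg n a else 0 := by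
    split_ifs with h
    · subst h
      rw [sum_eq_single a]
      · simp
      · intro c _ hc
        simp [hc.symm]
      · intro h
        exact absurd (mem_univ _) h
    · refine sum_eq_zero fun c _ => ?_
      by_cases hc : a = c
      · subst hc
        simp [Ne.symm h]
      · simp [hc]
  rw [h1]
  rcases lt_trichotomy a b with h | h | h
  · rw [pair_count n h, if_neg h.ne, if_neg h.ne]
  · subst h
    rw [if_pos rfl, if_pos rfl]
    have h2 : ∑ t : T n, (P n a t).toNat * (P n a t).toNat = deg n a := by
      rw [deg]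
      refine sum_congr rfl fun t _ => ?_
      cases P n a t <;> rfl
    rw [h2]
    have := deg_le n a
    omega
  · rw [if_neg h.ne', if_neg h.ne', ← pair_count n h, add_zero]
    exact sum_congr rfl fun t _ => by ring

end design

/-- For every `c` there is a split graph of diameter `3` with exactly four distinct adjacency
eigenvalues and with more than `c` distinct vertex degrees. -/
theorem result (c : ℕ) :
    ∃ (V : Type) (_ : Fintype V) (_ : DecidableEq V) (G : SimpleGraph V)
      (_ : DecidableRel G.Adj),
      IsSplit G ∧ HasDiameter G 3 ∧ (spectrum ℝ (G.adjMatrix ℝ)).ncard = 4 ∧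
        c < (univ.image fun v => G.degree v).card := by
  classical
  obtain ⟨n, hn⟩ : ∃ n, n = c + 3 := ⟨_, rfl⟩
  have hn0 : 0 < n := by omega
  let z0 : Fin n := ⟨0, hn0⟩
  let z1 : Fin n := ⟨1, by omega⟩
  let z2 : Fin n := ⟨2, by omega⟩
  have h01 : z0 ≠ z1 := by simp [z0, z1]
  have h12 : z1 < z2 := by simp [z1, z2]
  have h02 : z0 < z2 := by simp [z0, z2]
  refine ⟨Fin n ⊕ S n, inferInstance, inferInstance, splitGraph (fun a s => M n a s = true), inferInstance, isSplit,
    ?_, ?_, ?_⟩
  · have : Nonempty (Fin n) := ⟨z0⟩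
    apply hasDiameter
    · rintro ((j | q) | q)
      · exact ⟨j, by simp [M, P]⟩
      · exact ⟨q.1.1, by simp [M, P]⟩
      · exact ⟨q.1, by simp [M]⟩
    · refine ⟨.inl (.inl z0), .inl (.inr ⟨(z1, z2), ⟨0, ?_⟩⟩), ?_⟩
      · simp only [h12, if_true]
        omega
      · rintro a ⟨h1, h2⟩
        have h1' : a ≤ z0 := of_decide_eq_true h1
        have h2' : a = z1 ∨ a = z2 := of_decide_eq_true h2
        simp only [z0, z1, z2, Fin.le_def, Fin.ext_iff] at h1' h2'
        omega
  · refine ncard_spectrum (μ := 2 * n + 1) ?_ h01 ?_ ?_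
    · have : (0 : ℝ) < n := by exact_mod_cast hn0
      linarith
    · intro a b
      have h := congrArg (Nat.cast : ℕ → ℝ) (count n a b)
      push_cast at h
      rw [← h]
      refine sum_congr rfl fun s _ => ?_
      cases M n a s <;> cases M n b s <;> simp
    · have hp : (if (z0, z2).1 < (z0, z2).2 then n + 1 + ((z0, z2).2 : ℕ) else 0) =
          n + 1 + (z2 : ℕ) := if_pos h02
      refine ⟨.inl (.inr ⟨(z0, z2), ⟨0, ?_⟩⟩), .inl (.inr ⟨(z0, z2), ⟨1, ?_⟩⟩), ?_, ?_⟩
      · rw [hp]; omega
      · rw [hp]; omega
      · simp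
      · intro a
        exact Iff.rfl
  · have hdeg : ∀ j : Fin n, (splitGraph (fun a s => M n a s = true)).degree (.inr (.inl (.inl j))) = (j : ℕ) + 1 := by
      intro j
      rw [← card_neighborFinset_eq_degree]
      have : (splitGraph (fun a s => M n a s = true)).neighborFinset (.inr (.inl (.inl j))) =
          (Iic j).map ⟨Sum.inl, Sum.inl_injective⟩ := by
        ext v
        rw [mem_neighborFinset]
        rcases v with a | s
        · simp [M, P]
        · simp
      rw [this, card_map, Fin.card_Iic]
    have hsub : (univ.image fun j : Fin n => (j : ℕ) + 1) ⊆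
        univ.image fun v => (splitGraph (fun a s => M n a s = true)).degree v := by
      intro k hk
      rw [mem_image] at hk ⊢
      obtain ⟨j, _, hj⟩ := hk
      exact ⟨.inr (.inl (.inl j)), mem_univ _, by rw [hdeg j, hj]⟩
    have hcard := card_le_card hsub
    rw [card_image_of_injective _ (fun i j h => by
      have : (i : ℕ) + 1 = j + 1 := h
      exact Fin.ext (by omega)), card_univ, Fintype.card_fin] at hcard
    omega

end Pool.Agent.Results.MP_6460d1_co.ManyDegrees
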